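import Mathlib

namespace Pool.Agent.Results.MP_0f9b8a_co.Parity

open Finset Filter MvPolynomial Topology

/-- admissible functions -/
def Admissible (f : ℕ → ℕ → ℝ) : Prop :=
  (∃ p q : MvPolynomial (Fin 2) ℚ, ∀ a b : ℕ, 1 ≤ a → 1 ≤ b → aeval ![(a : ℝ), b] q ≠ 0 ∧
    f a b = aeval ![(a : ℝ), b] p / aeval ![(a : ℝ), b] q) ∧
  (∀ a b, 1 ≤ a → 1 ≤ b → 0 < f a b) ∧ ∃ k L : ℝ, 0 < k ∧ 0 < L ∧
    Tendsto (fun d : ℕ × ℕ => f d.1 d.2 / (d.1 * d.2 / (d.1 + d.2) : ℝ) ^ k) (atTop ×ˢ atTop) (𝓝 L)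

noncomputable def h (b : ℝ) : ℝ := (b * (b + 1)) ^ 8

noncomputable def g (a b : ℝ) : ℝ := h b / (1 + 10 ^ 14 * (a - 2) ^ 2 * h b)

noncomputable def f (a b : ℕ) : ℝ := a * b / (a + b) / 10 ^ 14 + g a b

lemma h0 (b : ℝ) : 0 ≤ h b := Even.pow_nonneg (by decide) _

lemma g0 (a b : ℝ) : 0 ≤ g a b := by have := h0 b; unfold g; positivity

lemma g1 (a : ℕ) (b : ℝ) (ha : a ≠ 2) : g a b ≤ 1 / 10 ^ 14 := by
  have := h0 b
  have e : (1 : ℝ) ≤ (a - 2) ^ 2 := by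
    have : (1 : ℤ) ≤ (a - 2) ^ 2 := by
      have : (a - 2 : ℤ) ≠ 0 := by omega
      exact (by positivity : 0 < (a - 2 : ℤ) ^ 2)
    exact_mod_cast this
  rw [g, div_le_div_iff₀ (by positivity) (by positivity)]
  nlinarith

lemma adm : Admissible f := by
  refine ⟨⟨X 0 * X 1 * (1 + 10 ^ 14 * (X 0 - 2) ^ 2 * (X 1 * (X 1 + 1)) ^ 8) +
    10 ^ 14 * (X 0 + X 1) * (X 1 * (X 1 + 1)) ^ 8,
    10 ^ 14 * (X 0 + X 1) * (1 + 10 ^ 14 * (X 0 - 2) ^ 2 * (X 1 * (X 1 + 1)) ^ 8), fun a b ha hb => ?_⟩,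
    fun a b ha hb => ?_, 1, 1 / 10 ^ 14, one_pos, by positivity, ?_⟩
  · simp only [map_add, map_mul, map_pow, map_sub, map_one, map_ofNat, aeval_X, Matrix.cons_val_zero,
      Matrix.cons_val_one, f, g, h]
    exact ⟨by positivity, by field_simp⟩
  · have := g0 a b
    unfold f; positivity
  · have t : Tendsto (fun d : ℕ × ℕ => 1 / (10 : ℝ) ^ 14 + ((d.1 : ℝ)⁻¹ + (d.2 : ℝ)⁻¹))
        (atTop ×ˢ atTop) (𝓝 (1 / 10 ^ 14 + (0 + 0))) :=
      ((tendsto_inv_atTop_nhds_zero_nat.comp tendsto_fst).add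
        (tendsto_inv_atTop_nhds_zero_nat.comp tendsto_snd)).const_add _
    rw [add_zero, add_zero] at t
    have e : ∀ᶠ d : ℕ × ℕ in atTop ×ˢ atTop, f d.1 d.2 / (d.1 * d.2 / (d.1 + d.2) : ℝ) ^ (1 : ℝ) =
        1 / 10 ^ 14 + g d.1 d.2 * ((d.1 : ℝ)⁻¹ + (d.2 : ℝ)⁻¹) ∧ d.1 ≠ 2 := by
      filter_upwards [(eventually_ge_atTop 3).prod_mk (eventually_ge_atTop 3)] with d hd
      have : (0 : ℝ) < d.1 := by exact_mod_cast (by omega : 0 < d.1)
      have : (0 : ℝ) < d.2 := by exact_mod_cast (by omega : 0 < d.2)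
      exact ⟨by rw [Real.rpow_one, f]; field_simp; ring, by omega⟩
    refine tendsto_of_tendsto_of_tendsto_of_le_of_le' tendsto_const_nhds t
      (e.mono fun d hd => ?_) (e.mono fun d hd => ?_) <;> rw [hd.1]
    · have := g0 d.1 d.2
      exact le_add_of_nonneg_right (by positivity)
    · exact add_le_add_right (mul_le_of_le_one_left (by positivity) ((g1 _ _ hd.2).trans (by norm_num))) _

noncomputable def T (d : ℕ) : ℝ := ((d - 1).factorial : ℝ) ^ 8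

lemma bounds (Λ : ℝ) (l1 : 1 ≤ Λ) (l2 : f 1 1 * Λ * Λ = 1) (l3 : Λ ^ 2 ≤ 2 * 10 ^ 14) (n : ℕ → ℝ)
    (h1 : n 1 = Λ) (hn : ∀ d ≥ 2, n d = ∑ a ∈ Ico 1 d, f a (d - a) * n a * n (d - a)) (d : ℕ) :
    1 ≤ d → (if Even d then 1 else Λ) * T d ≤ n d ∧
      n d ≤ (2 - 1 / d) * ((if Even d then 1 else Λ) * T d) := by
  have n2 : n 2 = 1 := by rw [hn 2 le_rfl]; simpa [h1] using l2
  induction d using Nat.strong_induction_on with | _ d ih
  intro hd
  obtain rfl | rfl | ⟨m, rfl⟩ : d = 1 ∨ d = 2 ∨ ∃ m, d = m + 3 := by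
    rcases d with _ | _ | _ | m <;> simp at hd ⊢
  · norm_num [T, h1]
  · norm_num [T, n2]
  have w1 : ∀ a : ℕ, 1 ≤ (if Even a then 1 else Λ) ∧ (if Even a then 1 else Λ) ≤ Λ := fun a => by
    split_ifs <;> simp [l1]
  have T0 : ∀ a, 0 < T a := fun a => by unfold T; positivity
  have up : ∀ a ∈ Ico 1 (m + 3), 0 ≤ n a ∧ n a ≤ 2 * (Λ * T a) := fun a ha => by
    obtain ⟨p, q⟩ := ih a (mem_Ico.mp ha).2 (mem_Ico.mp ha).1
    have := T0 a
    have := w1 a
    exact ⟨le_trans (by nlinarith) p, q.trans (mul_le_mul (by simp) (by nlinarith) (by nlinarith)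
      (by norm_num))⟩
  have sy : ∀ a ∈ Ico 1 (m + 3), m + 3 - a ∈ Ico 1 (m + 3) := fun a ha => by
    simp at ha ⊢; omega
  have pe : Even (m + 3) ↔ Even (m + 1) := by simp [parity_simps]
  obtain ⟨p, q⟩ := ih (m + 1) (by omega) (by omega)
  simp only [pe]
  set w := if Even (m + 1) then 1 else Λ
  have w0 : 1 ≤ w := (w1 _).1
  have e1 : T (m + 3) = h (m + 1 : ℕ) * T (m + 1) := by
    simp [T, h, Nat.factorial_succ]; ring
  have e2 : T (m + 3) = (m + 2) ^ 8 * T (m + 2) := by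
    simp [T, Nat.factorial_succ (m + 1)]; ring
  have two : 2 ∈ Ico 1 (m + 3) := by simp
  have hh := h0 (m + 1 : ℕ)
  rw [hn _ (by omega)]
  constructor
  · refine le_trans ?_ (single_le_sum (fun a ha => mul_nonneg (mul_nonneg (adm.2.1 _ _
      (mem_Ico.mp ha).1 (mem_Ico.mp (sy a ha)).1).le (up a ha).1) (up _ (sy a ha)).1) two)
    rw [e1, n2, mul_left_comm, mul_one]
    refine mul_le_mul ?_ p (by have := T0 (m + 1); positivity) (adm.2.1 _ _ (by omega) (by omega)).le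
    simp [f, g]; positivity
  · have : ∀ a ∈ Ico 1 (m + 3), f a (m + 3 - a) * n a * n (m + 3 - a) ≤ 8 * (m + 3) * T (m + 2) +
        if a = 2 then h (m + 1 : ℕ) * n (m + 1) else 0 := fun a ha => by
      obtain ⟨b, hb⟩ : ∃ b, m + 3 = a + b := ⟨m + 3 - a, by simp at ha; omega⟩
      have u1 := up a ha
      have u2 := up _ (sy a ha)
      rw [mem_Ico] at ha
      rw [show m + 3 - a = b by omega] at u2 ⊢
      have a1 : (1 : ℝ) ≤ a := by exact_mod_cast ha.1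
      have b1 : (1 : ℝ) ≤ b := by exact_mod_cast (by omega : 1 ≤ b)
      have hb' : (m + 3 : ℝ) = a + b := by exact_mod_cast hb
      have t : T a * T b ≤ T (m + 2) := by
        rw [T, T, T, ← mul_pow]
        refine pow_le_pow_left₀ (by positivity) ?_ _
        rw [show m + 2 - 1 = a - 1 + (b - 1) by omega]
        exact_mod_cast Nat.le_of_dvd (Nat.factorial_pos _) (Nat.factorial_mul_factorial_dvd_factorial_add _ _)
      have s : n a * n b ≤ 8 * 10 ^ 14 * T (m + 2) := by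
        refine (mul_le_mul u1.2 u2.2 u2.1 (u1.1.trans u1.2)).trans ?_
        nlinarith [mul_le_mul l3 t (mul_pos (T0 a) (T0 b)).le (by norm_num)]
      have r : (a * b / (a + b) : ℝ) ≤ m + 2 := by rw [div_le_iff₀ (by positivity)]; nlinarith
      have s0 := mul_nonneg u1.1 u2.1
      have := T0 (m + 2)
      rw [f, mul_assoc]
      split_ifs with c
      · obtain rfl : b = m + 1 := by omega
        have : g a (m + 1 : ℕ) * (n a * n (m + 1)) = h (m + 1 : ℕ) * n (m + 1) := by simp [c, g, n2]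
        nlinarith [mul_le_mul r s s0 (by positivity)]
      · nlinarith [mul_le_mul r s s0 (by positivity), mul_le_mul (g1 a b c) s s0 (by positivity)]
    refine (sum_le_sum this).trans ?_
    rw [sum_add_distrib, sum_ite_eq', if_pos two, sum_const, Nat.card_Ico, nsmul_eq_mul]
    have k : (m + 2) * (8 * (m + 3) * T (m + 2)) ≤ (1 / (m + 1) - 1 / (m + 3)) * (w * T (m + 3)) := by
      have m0 : (0 : ℝ) ≤ m := by positivity
      have : ((m + 2) * (8 * (m + 3)) : ℝ) ≤ (1 / (m + 1) - 1 / (m + 3)) * (m + 2) ^ 8 := by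
        rw [div_sub_div _ _ (by positivity) (by positivity), div_mul_eq_mul_div,
          le_div_iff₀ (by positivity), ← sub_nonneg]
        ring_nf; positivity
      have z : (0 : ℝ) ≤ 1 / (m + 1) - 1 / (m + 3) :=
        sub_nonneg.mpr (one_div_le_one_div_of_le (by positivity) (by linarith))
      refine le_trans ?_ (mul_le_mul_of_nonneg_left (le_mul_of_one_le_left (T0 _).le w0) z)
      rw [e2]
      nlinarith [mul_le_mul_of_nonneg_right this (T0 (m + 2)).le]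
    have := mul_le_mul_of_nonneg_left q hh
    rw [e1] at k ⊢
    push_cast [show m + 3 - 1 = m + 2 from rfl] at *
    nlinarith

/-- An admissible recursion whose d-th roots decrease infinitely often. -/
theorem result : ∃ (f : ℕ → ℕ → ℝ) (n₁ : ℝ), Admissible f ∧ 0 < n₁ ∧ ∀ n : ℕ → ℝ, n 1 = n₁ →
    (∀ d ≥ 2, n d = ∑ a ∈ Ico 1 d, f a (d - a) * n a * n (d - a)) →
    ∀ D, ∃ d ≥ D, 1 ≤ d ∧ n (d + 1) ^ ((d + 1 : ℕ) : ℝ)⁻¹ < n d ^ (d : ℝ)⁻¹ := by
  have f0 := adm.2.1 1 1 le_rfl le_rfl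
  have f1 : 1 / 2 / 10 ^ 14 ≤ f 1 1 ∧ f 1 1 ≤ 3 / 2 / 10 ^ 14 := by
    have := g0 1 1
    have := g1 1 1 (by decide)
    simp only [f, Nat.cast_one] at *
    constructor <;> linarith
  set Λ := √(f 1 1)⁻¹
  have l2 : f 1 1 * Λ * Λ = 1 := by rw [mul_assoc, Real.mul_self_sqrt (by positivity)]; field_simp
  have l0 : 0 ≤ Λ := Real.sqrt_nonneg _
  have l : 2 * 6 ^ 8 < Λ := by
    by_contra c
    nlinarith [mul_le_mul f1.2 (mul_self_le_mul_self l0 (not_lt.mp c)) (by positivity) (by positivity)]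
  refine ⟨f, Λ, adm, by linarith, fun n h1 hn D => ⟨2 * D + 1, by omega, by omega, ?_⟩⟩
  have B := bounds Λ (by linarith) l2 (by nlinarith [f1.1]) n h1 hn
  have p := (B (2 * D + 1) (by omega)).1
  have q := B (2 * D + 1 + 1) (by omega)
  rw [if_neg (by simp)] at p
  rw [if_pos (by simp [parity_simps])] at q
  have d1 : 1 ≤ 2 * D + 1 := by omega
  generalize 2 * D + 1 = d at *
  obtain ⟨e, rfl⟩ : ∃ e, d = e + 1 := ⟨d - 1, by omega⟩
  simp only [T, Nat.add_sub_cancel, one_mul, Nat.factorial_succ e] at p q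
  have F0 : (0 : ℝ) < e.factorial := by positivity
  have q0 : 0 ≤ n (e + 1 + 1) := le_trans (by positivity) q.1
  have p0 : 0 ≤ n (e + 1) := le_trans (by positivity) p
  have st : ((e + 1 : ℕ) : ℝ) ^ (e + 1) ≤ 6 ^ (e + 1) * e.factorial := by
    have a := Real.pow_div_factorial_le_exp ((e + 1 : ℕ) : ℝ) (by positivity) (e + 1)
    rw [← Real.exp_one_pow, div_le_iff₀ (by positivity), Nat.factorial_succ, Nat.cast_mul] at a
    have b : Real.exp 1 ^ (e + 1) ≤ 3 ^ (e + 1) :=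
      pow_le_pow_left₀ (by positivity) (by linarith [Real.exp_one_lt_d9]) _
    have c : ((e + 1 : ℕ) : ℝ) ≤ 2 ^ (e + 1) := by exact_mod_cast Nat.lt_two_pow_self.le
    calc _ ≤ _ := a
      _ ≤ 3 ^ (e + 1) * (2 ^ (e + 1) * e.factorial) := by gcongr
      _ = _ := by rw [← mul_assoc, ← mul_pow]; norm_num
  refine lt_of_pow_lt_pow_left₀ ((e + 1 + 1) * (e + 1)) (by positivity) ?_
  rw [pow_mul, Real.rpow_inv_natCast_pow q0 (by omega), mul_comm, pow_mul,
    Real.rpow_inv_natCast_pow p0 (by omega)]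
  calc n (e + 1 + 1) ^ (e + 1) ≤ (2 * (((e + 1 : ℕ) : ℝ) * e.factorial) ^ 8) ^ (e + 1) := by
        refine pow_le_pow_left₀ q0 (q.2.trans ?_) _
        push_cast
        exact mul_le_mul_of_nonneg_right (by simp; positivity) (by positivity)
    _ = 2 ^ (e + 1) * (((e + 1 : ℕ) : ℝ) ^ (e + 1)) ^ 8 * (e.factorial ^ 8) ^ (e + 1) := by ring
    _ ≤ 2 ^ (e + 1) * (6 ^ (e + 1) * e.factorial) ^ 8 * (e.factorial ^ 8) ^ (e + 1) := by gcongr
    _ = (2 * 6 ^ 8) ^ (e + 1) * 1 * (e.factorial ^ 8) ^ (e + 1 + 1) := by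
        rw [mul_pow, mul_pow, ← pow_mul 6, ← pow_mul 6, mul_comm 8]; ring
    _ < Λ ^ (e + 1) * Λ * (e.factorial ^ 8) ^ (e + 1 + 1) := by gcongr; linarith
    _ = (Λ * e.factorial ^ 8) ^ (e + 1 + 1) := by ring
    _ ≤ _ := pow_le_pow_left₀ (by positivity) p _

end Pool.Agent.Results.MP_0f9b8a_co.Parity
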